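import Pool.Agent.X305.WM.CdrMain

/-!
# The conductor of the endomorphisms of `H^i (X)` and local Euler factors

Let `X` be a smooth projective variety over `ℚ`, `p` a prime (`q = p`), and suppose for simplicity that the
inertia group at `p` acts unipotently on the `H^i (X)` (in general take for `W l` the part on which the finite
part of inertia acts trivially). Let `W l` be `H^i (X, ℚ_l)`, `l ≠ p`, coefficients extended to an algebraic closure
`Ω l`, `F` a geometric Frobenius element, `N` the monodromy operator, and `A l` the space of the endomorphisms of
`W l`. The conductor exponent of `A l = W l ⊗ (W l)'` is the rank of `N` on `A l`.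

**Theorem.** Suppose that the characteristic polynomial of `F` on `W l` is a polynomial `P` with integer
coefficients independent of `l`, and that `P` has as many roots of weight `i + k` as of weight `i - k`, for all `k`.
Let `c = ∑ v (w) (v (w) + v (w + 1))`, where `v (w)` is the number of the roots of `P` of weight `w`. Then:
(1) `dim ker (N | A l) ≥ c` for all `l` (an upper bound for the conductor exponent);
(2) equality holds for `l` if and only if the weight-monodromy conjecture is true for `W l`;
(3) if it holds for all `l` then the Euler factor of `W l` has integer coefficients independent of `l`;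
(4) if the weight-monodromy conjecture is true for one `l`, then it is true for all `l` if and only if the conductor
exponent of `A l` does not depend on `l`.

The proof: `dim ker (N | A l)` is the sum of `min (a, b)` over all pairs of Jordan blocks of `N`, of lengths `a` and
`b`, and the number of the eigenvalues of `F` of weights `0` and `1` on the homomorphisms of the first to the second
block is at most `min (a, b)`, with equality for all pairs if and only if the intervals of the weights of the blocks
form a chain with respect to inclusion. By the symmetry of the weights the center of each of them is then `i`.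
-/

set_option autoImplicit false

universe u

namespace Pool.Agent.Results.MP_898f40_nt.ConductorDecides

open Module Polynomial Pool.Agent.X268.WM Pool.Agent.X305.WM

/-- **The conductor of the endomorphisms, weight-monodromy and Euler factors.** -/
theorem result {q : ℕ} (hq : 1 < q) (i : ℕ) {Λ : Type} (Ω : Λ → Type) [∀ l, Field (Ω l)]
    [∀ l, CharZero (Ω l)] [∀ l, IsAlgClosed (Ω l)] (W A : ∀ l, FN.{u} (Ω l) q)
    -- `A l` is the space of the endomorphisms of `W l`
    (hA : ∀ l, IsEndOf (A l) (W l))
    -- the eigenvalues of Frobenius are Weil numbers of some weights
    (hmix : ∀ l, (W l).IsMixed)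
    -- the characteristic polynomial of Frobenius is integral and independent of `l`
    (P : ℤ[X]) (hPm : P.Monic) (hP : ∀ l, (W l).F.charpoly = P.map (Int.castRingHom (Ω l)))
    (hsym : SymmetricWeights q i P) :
    (∀ l, closePairs q P ≤ kerDim (A l)) ∧
      (∀ l, kerDim (A l) = closePairs q P ↔ (W l).IsPure i) ∧
      ((∀ l, kerDim (A l) = closePairs q P) →
        ∃ R : ℤ[X], R.Monic ∧ ∀ l, kerPoly (W l) = R.map (Int.castRingHom (Ω l))) ∧
      ((∃ l, (W l).IsPure i) →
        ((∀ l l', kerDim (A l) = kerDim (A l')) ↔ ∀ l, (W l).IsPure i)) := by
  obtain ⟨h1, h2, h3⟩ := conductor_decides hq i Ω W A hA hmix P hPm hP hsym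
  refine ⟨h1, h2, h3, ?_⟩
  rintro ⟨l₀, h₀⟩
  constructor
  · intro h l
    exact (h2 l).1 ((h l l₀).trans ((h2 l₀).2 h₀))
  · intro h l l'
    rw [(h2 l).2 (h l), (h2 l').2 (h l')]

end Pool.Agent.Results.MP_898f40_nt.ConductorDecides
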