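import Pool.Agent.X310.WdQ

/-!
# `MP_898f40_nt`: integrality and `ℓ`-independence of local Euler factors

Fix a prime `p`.  For the Euler factors at `p` of smooth projective varieties over `ℚ` the following
are equivalent:

* for all varieties `X` of even dimension the Euler factor of the cohomology in the middle degree
  has integer coefficients and is independent of `ℓ`;
* the same for all `X` and all degrees;
* for all `X` and all degrees the trace of each element of the Weil group on the kernel of each
  power of the monodromy operator is a rational number independent of `ℓ`.
-/

set_option autoImplicit false

namespace Pool.Agent.Results.MP_898f40_nt.MiddleEvenDegree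

open Pool.Agent.X310.WD

theorem result {W : Type} [Group W] [TopologicalSpace W] [IsTopologicalGroup W] (G : WeilData W)
    {Λ : Type} {K : Λ → Type} [∀ l, Field (K l)] [∀ l, CharZero (K l)] (S : VarietyClass G Λ K) :
    List.TFAE [
      ∀ X, Even (S.dim X) → IntegralFactors fun l => S.H X (S.dim X) l,
      ∀ X i, IntegralFactors fun l => S.H X i l,
      ∀ X i, RationalTraces fun l => S.H X i l] :=
  variety_main S

end Pool.Agent.Results.MP_898f40_nt.MiddleEvenDegree
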