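import Pool.Agent.X305.LT.Moment

/-!
# Moments of the weights and of the monodromy operator, and local Euler factors

Let `X` be a smooth projective variety over `ℚ`, `p` a prime (`q = p`), and suppose for simplicity that the
inertia group at `p` acts unipotently on the `H^i (X)` (in general take for `W l` the part on which the finite
part of inertia acts trivially). Let `W l` be `H^i (X, ℚ_l)`, `l ≠ p`, coefficients extended to an algebraic closure
`Ω l`, `F` a geometric Frobenius element and `N` the monodromy operator.

**Theorem.** Suppose that the characteristic polynomial of `F` on `W l` is a polynomial `P` with integer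
coefficients independent of `l` (no symmetry of the weights is assumed). Let `M (j) = ∑ v (w) (w - j) ^ 2`, where
`v (w)` is the number of the roots of `P` of weight `w`, and `J l = ∑ k rank (N ^ k | W l)`, the sum over all
`k ≥ 1`. Then:
(1) `2 J l ≤ M (j)` for all `l` and all integers `j`;
(2) `2 J l = M (i)` if and only if the weight-monodromy conjecture is true for `W l`;
(3) if this is true for all `l` then the Euler factor of `W l` has integer coefficients independent of `l`;
(4) if the weight-monodromy conjecture is true for one `l`, then it is true for all `l` if and only if the number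
`J l` does not depend on `l`.

The proof: a Jordan chain of length `a` consisting of generalized eigenvectors of `F`, of weights
`w, w - 2, ..., w - 2 (a - 1)`, contributes `(a ^ 3 - a) / 6` to `J l` and
`(a ^ 3 - a) / 3 + a (w - (a - 1) - j) ^ 2` to `M (j)`.
-/

set_option autoImplicit false

universe u

namespace Pool.Agent.Results.MP_898f40_nt.SecondMoment

open Module Polynomial Pool.Agent.X268.WM Pool.Agent.X305.WM Pool.Agent.X305.LT

/-- **The second moment of the weights, weight-monodromy and Euler factors.** -/
theorem result {q : ℕ} (hq : 1 < q) (i : ℕ) {Λ : Type} (Ω : Λ → Type) [∀ l, Field (Ω l)]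
    [∀ l, CharZero (Ω l)] [∀ l, IsAlgClosed (Ω l)] (W : ∀ l, FN.{u} (Ω l) q)
    -- the eigenvalues of Frobenius are Weil numbers of some weights
    (hmix : ∀ l, (W l).IsMixed)
    -- the characteristic polynomial of Frobenius is integral and independent of `l`
    (P : ℤ[X]) (hPm : P.Monic) (hP : ∀ l, (W l).F.charpoly = P.map (Int.castRingHom (Ω l))) :
    (∀ l, ∀ j : ℤ, 2 * jordanMoment (W l) ≤ weightMoment q P j) ∧
      (∀ l, 2 * jordanMoment (W l) = weightMoment q P i ↔ (W l).IsPure i) ∧
      ((∀ l, 2 * jordanMoment (W l) = weightMoment q P i) →
        ∃ R : ℤ[X], R.Monic ∧ ∀ l, kerPoly (W l) = R.map (Int.castRingHom (Ω l))) ∧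
      ((∃ l, (W l).IsPure i) →
        ((∀ l l', jordanMoment (W l) = jordanMoment (W l')) ↔ ∀ l, (W l).IsPure i)) := by
  obtain ⟨h1, h2, h3⟩ := moment_decides hq i Ω W hmix P hPm hP
  refine ⟨h1, h2, h3, ?_⟩
  rintro ⟨l₀, h₀⟩
  have h4 := (h2 l₀).2 h₀
  constructor
  · intro h l
    exact (h2 l).1 (by rw [h l l₀]; exact h4)
  · intro h l l'
    have h5 := (h2 l).2 (h l)
    have h6 := (h2 l').2 (h l')
    linarith

end Pool.Agent.Results.MP_898f40_nt.SecondMoment
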