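import Pool.Agent.X305.WM.EulerMain

/-!
# Weights of the inertia invariants and independence of `ℓ` of the local Euler factor

Let `X` be a smooth projective variety over `ℚ`, `p` a prime number (`q = p`), and `W l` the part of
`H^i(X, ℚ_l)` (coefficients extended to an algebraic closure `Ω l`) on which the finite quotient of the inertia
group acts trivially (Weil-Deligne representation), with a geometric Frobenius element `F` and the monodromy
operator `N`. Then the inertia invariants are the kernel of `N`, and `P_(p,l)(T)` is the reciprocal polynomial of
`kerPoly (W l)`, the characteristic polynomial of `F` on the kernel of `N`.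

**Theorem.** Suppose that for all `l ≠ p` the characteristic polynomial of `F` on `W l` is one polynomial `P` with
integral coefficients (known for example if the groups `H^j(X)`, `j ≠ i`, are generated by algebraic cycles).
There is a monic polynomial `R` with integral coefficients, equal to `P(X) / gcd(P(X), P(X / p))` up to a
constant, such that for all `l ≠ p`:
(1) `R` divides `kerPoly (W l)`;
(2) `kerPoly (W l) = R` if `F` has no eigenvalue of weight `> i` on the inertia invariants; in particular if
`H^i(X, ℚ_l)` satisfies the weight-monodromy conjecture;
(3) `kerPoly (W l) = R` if and only if the dimension of the kernel of `N` is the degree of `R`.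

So the problem has a positive answer for `X`, `i`, `p` as soon as the weights of the inertia invariants are at most
`i`, for example if `X` has a regular proper model with special fibre `Y` for which the restriction map from
`H^i(Y)` to the inertia invariants is surjective (local invariant cycles). The weight-monodromy conjecture is not
needed: its failure may be invisible in the weights of the invariants.

The duality (`SelfDual`) is used as follows: if `N` is injective on the generalized eigenspace for
`q ^ (i + 1) / a`, then it maps the generalized eigenspace for `a` onto that for `a / q`.
-/

set_option autoImplicit false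

universe u

namespace Pool.Agent.Results.MP_898f40_nt.WeightsOfInvariants

open Module Polynomial Pool.Agent.X268.WM Pool.Agent.X268.EV Pool.Agent.X305.WM

/-- **Weights of the inertia invariants and independence of `ℓ`.** -/
theorem result {q : ℕ} (hq : 1 < q) (i : ℕ) {Λ : Type} (Ω : Λ → Type) [∀ l, Field (Ω l)]
    [∀ l, CharZero (Ω l)] [∀ l, IsAlgClosed (Ω l)] (W : ∀ l, FN.{u} (Ω l) q) (P : ℤ[X])
    -- the characteristic polynomial of Frobenius is integral and independent of `l`
    (hP : ∀ l, (W l).F.charpoly = P.map (Int.castRingHom (Ω l))) (hPm : P.Monic)
    -- the eigenvalues of Frobenius are Weil numbers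
    (hmix : ∀ l, (W l).IsMixed)
    -- Poincaré duality and the hard Lefschetz theorem
    (hdual : ∀ l, SelfDual (W l) i) :
    ∃ R : ℤ[X], R.Monic ∧
      Associated (R.map (Int.castRingHom ℚ)) (reducedPoly q (P.map (Int.castRingHom ℚ))) ∧
      (∀ l, R.map (Int.castRingHom (Ω l)) ∣ kerPoly (W l)) ∧
      (∀ l, InvariantsBounded (W l) i → kerPoly (W l) = R.map (Int.castRingHom (Ω l))) ∧
      (∀ l, kerPoly (W l) = R.map (Int.castRingHom (Ω l)) ↔
        finrank (Ω l) ↥(LinearMap.ker (W l).N) = R.natDegree) ∧
      ∀ l, (W l).IsPure i → InvariantsBounded (W l) i :=
  euler_factors hq i Ω W P hP hPm hmix hdual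

end Pool.Agent.Results.MP_898f40_nt.WeightsOfInvariants
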